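import Mathlib

namespace Pool.Agent.Results.MP_54ed65_an.Q1

open Complex

/-- `p_β(z) = ((1+z)/(1-z))^β`, principal power. -/
noncomputable def p (β : ℝ) (z : ℂ) : ℂ := ((1 + z) / (1 - z)) ^ (β : ℂ)

/-- `P_{α,β}(z)`. -/
noncomputable def P (α β : ℝ) (z : ℂ) : ℂ :=
  ((α * ‖z‖ ^ 2 + (1 - α) * (1 - ‖z‖ ^ 2) : ℝ) : ℂ) * p β z +
    (((1 - α) * (1 - ‖z‖ ^ 2) : ℝ) : ℂ) * (z * deriv (p β) z)

lemma key {β ρ t : ℝ} (b0 : 0 < β) (b1 : β ≤ 1) (r0 : 0 < ρ) (ht : |t| < Real.pi / 2) :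
    0 ≤ Real.cos (β * t) * (β * (ρ ^ 2 + 1 - 2 * ρ * Real.cos t) + 2 * ρ * Real.cos t +
      β * (ρ ^ 2 - 1) * Real.cos t ^ 2) - Real.sin (β * t) * (β * Real.cos t * Real.sin t * (ρ ^ 2 + 1)) ∧
      0 ≤ Real.cos (β * t) := by
  have h (s : ℝ) (s0 : 0 ≤ s) (s1 : s ≤ 1) : |s * t| < Real.pi / 2 := by
    rw [abs_mul, abs_of_nonneg s0]; nlinarith [abs_nonneg t]
  have c1 := (Real.cos_pos_of_mem_Ioo (abs_lt.1 ht)).le
  have c2 := (Real.cos_pos_of_mem_Ioo (abs_lt.1 (h β b0.le b1))).le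
  have s : 0 ≤ Real.sin t * Real.sin (t - β * t) := by
    have := abs_lt.1 ht
    have := abs_lt.1 (h (1 - β) (by linarith) (by linarith))
    rcases le_total 0 t with g | g
    · exact mul_nonneg (Real.sin_nonneg_of_nonneg_of_le_pi g (by linarith))
        (Real.sin_nonneg_of_nonneg_of_le_pi (by nlinarith) (by linarith))
    · exact mul_nonneg_of_nonpos_of_nonpos (Real.sin_nonpos_of_nonpos_of_neg_pi_le g (by linarith))
        (Real.sin_nonpos_of_nonpos_of_neg_pi_le (by nlinarith) (by linarith))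
  rw [Real.sin_sub] at s
  refine ⟨?_, c2⟩
  have e := Real.sin_sq_add_cos_sq t
  have : 0 ≤ β * (ρ ^ 2 + 1) * (Real.sin t * (Real.sin t * Real.cos (β * t) - Real.cos t * Real.sin (β * t))) +
    2 * (1 - β) * ρ * Real.cos t * Real.cos (β * t) + 2 * β * ρ ^ 2 * Real.cos t ^ 2 * Real.cos (β * t) := by
    have : 0 ≤ 1 - β := by linarith
    positivity
  convert this using 1
  linear_combination (-β * (ρ ^ 2 + 1) * Real.cos (β * t)) * e

theorem result (α β : ℝ) (a0 : 0 < α) (a1 : α < 2 / 3) (b0 : 0 < β) (h : 0 ≤ α - 2 * (1 - α) * β)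
    (z : ℂ) (hz : ‖z‖ < 1) : 0 ≤ (P α β z).re := by
  have z1 : 1 - z ≠ 0 := fun g => by rw [← sub_eq_zero.1 g] at hz; simp at hz
  have n : normSq z < 1 := by rw [normSq_eq_norm_sq]; nlinarith [norm_nonneg z]
  obtain ⟨w, hw⟩ : ∃ w, w = (1 + z) / (1 - z) := ⟨_, rfl⟩
  have re : 0 < w.re := by
    rw [hw, div_re, ← add_div]
    exact div_pos (by simp [normSq_apply] at n ⊢; linarith) (normSq_pos.2 z1)
  have w0 : w ≠ 0 := fun g => by simp [g] at re
  have w1 : w + 1 ≠ 0 := fun g => by have := congrArg Complex.re g; simp at this; linarith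
  have zw : z = (w - 1) / (w + 1) := by rw [eq_div_iff w1, hw]; field_simp; ring
  have d : deriv (p β) z = β * w ^ ((β : ℂ) - 1) * (2 / (1 - z) ^ 2) := by
    have : HasDerivAt (fun z : ℂ => (1 + z) / (1 - z)) (2 / (1 - z) ^ 2) z := by
      refine (((hasDerivAt_id z).const_add 1).fun_div ((hasDerivAt_id z).const_sub 1) z1).congr_deriv ?_
      simp only [id]; ring
    exact hw ▸ (this.cpow_const (hw ▸ Or.inl re)).deriv
  have r0 := norm_pos_iff.2 w0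
  obtain ⟨k1, k2⟩ := key b0 (by nlinarith) r0 (abs_arg_lt_pi_div_two_iff.2 (.inl re))
  have N : 0 < normSq (w + 1) := normSq_pos.2 w1
  have x : w.re = ‖w‖ * Real.cos w.arg := (norm_mul_cos_arg w).symm
  have y : w.im = ‖w‖ * Real.sin w.arg := (norm_mul_sin_arg w).symm
  have e := Real.sin_sq_add_cos_sq w.arg
  have nz : ‖z‖ ^ 2 = normSq (w - 1) / normSq (w + 1) := by rw [← normSq_eq_norm_sq, zw, normSq_div]
  have q : P α β z = w ^ (β : ℂ) * (((α * ‖z‖ ^ 2 + (1 - α) * (1 - ‖z‖ ^ 2) : ℝ) : ℂ) +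
      (((1 - α) * (1 - ‖z‖ ^ 2) * β / 2 : ℝ) : ℂ) * (w - w⁻¹)) := by
    rw [P, d, p, ← hw, cpow_sub _ _ w0, cpow_one]
    have : z * (2 / (1 - z) ^ 2) = (w * w - 1) / 2 := by rw [hw]; field_simp; ring
    push_cast
    linear_combination (exp := 1) (1 - α) * (1 - (‖z‖ : ℂ) ^ 2) * β * w ^ (β : ℂ) / w * this +
      (1 - α) * (1 - (‖z‖ : ℂ) ^ 2) * β * w ^ (β : ℂ) * w / 2 * mul_inv_cancel₀ w0
  rw [q, mul_re, cpow_ofReal_re, cpow_ofReal_im, nz]
  simp only [add_re, add_im, re_ofReal_mul, im_ofReal_mul, ofReal_re, ofReal_im, sub_re, sub_im, inv_re, inv_im,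
    normSq_eq_norm_sq w]
  simp only [normSq_apply, add_re, add_im, sub_re, sub_im, one_re, one_im, x, y, mul_comm w.arg] at N ⊢
  generalize ‖w‖ = ρ, w.arg = t at *
  have N' : (ρ * Real.cos t + 1) * (ρ * Real.cos t + 1) + (ρ * Real.sin t + 0) * (ρ * Real.sin t + 0) =
    ρ ^ 2 + 1 + 2 * ρ * Real.cos t := by linear_combination ρ ^ 2 * e
  have M' : (ρ * Real.cos t - 1) * (ρ * Real.cos t - 1) + (ρ * Real.sin t - 0) * (ρ * Real.sin t - 0) =
    ρ ^ 2 + 1 - 2 * ρ * Real.cos t := by linear_combination ρ ^ 2 * e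
  have M0 : 0 ≤ ρ ^ 2 + 1 - 2 * ρ * Real.cos t := M' ▸ add_nonneg (mul_self_nonneg _) (mul_self_nonneg _)
  rw [N'] at N
  rw [N', M']
  have := div_nonneg (mul_nonneg (Real.rpow_nonneg r0.le β) (add_nonneg (mul_nonneg
    (show 0 ≤ 2 * (1 - α) by linarith) k1) (mul_nonneg h (mul_nonneg k2 M0)))) N.le
  refine this.trans_eq ?_
  have := N.ne'
  have := r0.ne'
  field_simp
  ring

end Pool.Agent.Results.MP_54ed65_an.Q1
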